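import Mathlib
import Pool.Agent.W2helper23.DEL.Pr

/-!
# Deligne's conjecture for the Artin twists of a motive of odd weight

The other definitions are in `Pool.Agent.W2helper23.DEL.Def` (the numerical data `Mot` of the
motive `M`, `IsRatio`, `IsDefect`), `Pool.Agent.W2helper23.DEL.QI` (`induce`),
`Pool.Agent.W2helper23.DEL.Pr` (`Ratio`, `Defect`) and `Pool.Agent.K4H74.SC.Core` (`Ext`, `Pair`,
`IsChr`, `lin`, `logTerm`).
-/

set_option autoImplicit false

namespace Pool.Agent.W2helper23.Old.CdArtinTwists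

open NumberField Pool.Agent.K4H74 Pool.Agent.K4H74.SK Pool.Agent.K4H74.ST Pool.Agent.K4H34.AL
  Pool.Agent.W2helper23.DEL

/-- The trivial character of `ℚ` (for `M` itself), and the faithful linear characters of the
(cyclic) extensions `L / K`, `K` totally complex. -/
inductive Cx : Pair → Prop
  | one : Cx ⟨⟨ℚ, ℚ⟩, fun _ => 1⟩
  | complex (E : Ext) (ψ : G E →* ℂˣ) : IsTotallyComplex E.K → Function.Injective ψ →
      Cx ⟨E, lin ψ⟩

/-- The decomposition group of the ideal `P` of the integers of `L`. -/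
def decompGroup {E : Ext} (P : Ideal (𝓞 E.L)) : Set (G E) :=
  {g | ∀ x y : 𝓞 E.L, (y : E.L) = emb g x → (y ∈ P ↔ x ∈ P)}

/-- The inertia group of the ideal `P` of the integers of `L`. -/
def inertiaGroup {E : Ext} (P : Ideal (𝓞 E.L)) : Set (G E) :=
  {g | ∀ x y : 𝓞 E.L, (y : E.L) = emb g x → y - x ∈ P}

/-- `L / K` is unramified at all finite primes, and the primes above `m` split completely. -/
def UnramifiedSplit (m : ℕ) (E : Ext) : Prop :=
  ∀ P : Ideal (𝓞 E.L), P.IsMaximal → (∀ g ∈ inertiaGroup P, g = 1) ∧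
    ((m : 𝓞 E.L) ∈ P → ∀ g ∈ decompGroup P, g = 1)

/-- The linear character `ψ` takes the value `-1` at all complex conjugations. -/
def TotallyOdd {E : Ext} (ψ : G E →* ℂˣ) : Prop := ∀ t : G E, IsCC t → ψ t = -1

/-- The trivial characters, the totally odd linear characters of the extensions of the totally real
fields, and the faithful linear characters of the (cyclic) extensions `L / K`, `K` totally complex,
which are unramified at all finite primes and in which the primes above `m` split completely. -/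
inductive Basic (m : ℕ) : Pair → Prop
  | trivial (K : Type) [Field K] [NumberField K] : Basic m ⟨⟨K, K⟩, fun _ => 1⟩
  | odd (E : Ext) (ψ : G E →* ℂˣ) : IsTotallyReal E.K → TotallyOdd ψ → Basic m ⟨E, lin ψ⟩
  | unramified (E : Ext) (ψ : G E →* ℂˣ) : IsTotallyComplex E.K → UnramifiedSplit m E →
      Function.Injective ψ → Basic m ⟨E, lin ψ⟩

lemma mem_decomp {E : Ext} {P : Ideal (𝓞 E.L)} (g : G E) :
    g ∈ decompGroup P ↔ (show E.L ≃ₐ[E.K] E.L from g) ∈ K4H77.SL.decomp E.K P := by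
  constructor
  · intro h x
    exact h x _ rfl
  · intro h x y hy
    have h1 : y = K4H77.SL.gi (show E.L ≃ₐ[E.K] E.L from g) x := RingOfIntegers.ext hy
    rw [h1]
    exact h x

lemma mem_inertia {E : Ext} {P : Ideal (𝓞 E.L)} (g : G E) :
    g ∈ inertiaGroup P ↔ (show E.L ≃ₐ[E.K] E.L from g) ∈ K4H77.SL.inertia E.K P := by
  constructor
  · intro h x
    exact h x _ rfl
  · intro h x y hy
    have h1 : y = K4H77.SL.gi (show E.L ≃ₐ[E.K] E.L from g) x := RingOfIntegers.ext hy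
    rw [h1]
    exact h x

lemma Cx.isChr {x : Pair} (h : Cx x) : IsChr x.2 := by
  cases h with
  | one => exact Pool.Agent.W2helper23.DEL.isChr_one ⟨ℚ, ℚ⟩
  | complex E ψ _ _ => exact isChr_lin ψ

lemma Basic.isChr {m : ℕ} {x : Pair} (h : Basic m x) : IsChr x.2 := by
  cases h with
  | trivial K => exact Pool.Agent.W2helper23.DEL.isChr_one ⟨K, K⟩
  | odd E ψ _ _ => exact isChr_lin ψ
  | unramified E ψ _ _ _ => exact isChr_lin ψ

variable {F : Type} [Field F]

/-- Some power of the ratio of `x` is a product of powers of the ratios of members of the family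
`T`, for all `τ`, and the same relation holds for the defects, for all `σ` and `τ`. -/
def PowerForm (M : Mot F) (T : Pair → Prop) (x : Pair) : Prop :=
  ∃ n : ℕ, 0 < n ∧ ∃ (r : ℕ) (y : Fin r → Pair) (k : Fin r → ℤ), (∀ i, T (y i)) ∧
    (∀ (τ : F →+* ℂ) (a : ℂ) (b : Fin r → ℂ), Ratio M τ x a → (∀ i, Ratio M τ (y i) (b i)) →
      a ^ n = ∏ i, b i ^ k i) ∧
    ∀ (σ : ℂ ≃+* ℂ) (τ : F →+* ℂ) (u : ℂˣ) (v : Fin r → ℂˣ), Defect M σ τ x u →
      (∀ i, Defect M σ τ (y i) (v i)) → u ^ n = ∏ i, v i ^ k i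

lemma powerForm_of {M : Mot F} {T : Pair → Prop} (hT : ∀ y, T y → IsChr y.2) {x : Pair}
    (hx : IsChr x.2)
    (h : ∃ n : ℕ, 0 < n ∧ ∃ (r : ℕ) (y : Fin r → Pair) (k : Fin r → ℤ), (∀ i, T (y i)) ∧
      pval (bothInv M) x ^ n = ∏ i, pval (bothInv M) (y i) ^ k i) : PowerForm M T x := by
  obtain ⟨n, hn, r, y, k, hy, h1⟩ := h
  obtain ⟨h2, h3⟩ := both_rel h1
  refine ⟨n, hn, r, y, k, hy, fun τ a b ha hb => ?_, fun σ τ u v hu hv => ?_⟩
  · have e1 := ratio_eq hx ha
    have e2 : ∀ i, b i = (pval (ratInv M τ) (y i) : ℂˣ) := fun i => ratio_eq (hT _ (hy i)) (hb i)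
    rw [e1, ← Units.val_pow_eq_pow_val, h2 τ, Units.coe_prod]
    exact Finset.prod_congr rfl fun i _ => by rw [Units.val_zpow_eq_zpow_val, e2 i]
  · rw [defect_eq hx hu, h3 σ τ]
    exact Finset.prod_congr rfl fun i _ => by rw [defect_eq (hT _ (hy i)) (hv i)]

lemma powerForm_root {M : Mot F} {T : Pair → Prop} (hT : ∀ y, T y → IsChr y.2) {x : Pair}
    (h : PowerForm M T x) {σ : ℂ ≃+* ℂ} {τ : F →+* ℂ}
    (hb : ∀ y, T y → ∀ v : ℂˣ, Defect M σ τ y v → IsOfFinOrder v) {u : ℂˣ}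
    (hu : Defect M σ τ x u) : IsOfFinOrder u := by
  obtain ⟨n, hn, r, y, k, hy, -, h2⟩ := h
  have h3 := h2 σ τ u _ hu (fun i => defect_val σ τ (hT _ (hy i)))
  have h4 : u ^ n ∈ CommGroup.torsion ℂˣ := by
    rw [h3]
    exact Subgroup.prod_mem _ fun i _ => Subgroup.zpow_mem _
      (hb _ (hy i) _ (defect_val σ τ (hT _ (hy i)))) _
  exact (isOfFinOrder_pow.mp h4).resolve_right hn.ne'

lemma powerForm_alg {M : Mot F} {T : Pair → Prop} (hT : ∀ y, T y → IsChr y.2) {x : Pair}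
    (h : PowerForm M T x) {τ : F →+* ℂ}
    (hb : ∀ y, T y → ∀ b : ℂ, Ratio M τ y b → IsAlgebraic ℚ b) {a : ℂ}
    (ha : Ratio M τ x a) : IsAlgebraic ℚ a := by
  obtain ⟨n, hn, r, y, k, hy, h1, -⟩ := h
  have h3 := h1 τ a _ ha (fun i => ratio_val τ (hT _ (hy i)))
  have h4 : a ^ n ∈ QB := by
    rw [h3]
    exact prod_mem fun i _ => zpow_mem
      (mem_QB.mpr (hb _ (hy i) _ (ratio_val τ (hT _ (hy i))))) _
  exact IsAlgebraic.of_pow hn (mem_QB.mp h4)

/-- Let `M` be the numerical data of a pure motive `M` over `ℚ` of odd weight with coefficients in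
`F`, critical at `s = 0`, with `s = 0` in the region of absolute convergence. For a character `χ`
of a Galois extension `L / K` of number fields let `M(χ) = M ⊗ Ind χ` be the motive over `ℚ` which
one gets from `M_K ⊗ χ` by restriction of scalars.

(1) There is exactly one ratio `L(M(χ), 0) / (c⁺(M)^(m⁺) c⁻(M)^(m⁻))` for each `τ`, and exactly one
defect for all `σ, τ`; Deligne's conjecture for `M(χ)` says that all the defects are `1`.

(2) Each multiplicative relation between Artin L-functions holds for the ratios and the defects.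

(3) For every `χ` some power of the ratios is the same product of powers of ratios for `M` itself
and for `M(ψ)`, `ψ` a faithful linear character over a totally complex field, and the same is true
for the defects. (4) If the defects of these are roots of unity then all defects are. (5) If the
ratios of these are algebraic then all ratios are.

(6) If the defects of `M(1_K)`, for all `K`, and of all `M(ψ)`, `ψ` faithful linear over a totally
complex field, are `1` then all the defects are `1` or `-1`, and they are `1` for the characters of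
the extensions `L / K` of odd degree. If moreover the defects of the `M(ψ)` with `ψ` totally odd
linear over a totally real field are `1`, then those of all `M(ψ)` with `ψ` linear over a totally
real field are `1`.

(7) (3), (4) and (5) hold also, for every `m ≥ 1`, for the family of the trivial characters, the
totally odd linear characters over totally real fields and the faithful linear characters of
unramified extensions of totally complex fields in which the primes above `m` split completely. -/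
theorem result (F : Type) [Field F] (M : Mot F) :
    -- (1)
    (∀ x : Pair, IsChr x.2 → (∀ τ : F →+* ℂ, ∃! r : ℂ, Ratio M τ x r) ∧
      ∀ (σ : ℂ ≃+* ℂ) (τ : F →+* ℂ), ∃! u : ℂˣ, Defect M σ τ x u) ∧
    -- (2)
    (∀ (r : ℕ) (x : Fin r → Pair) (k : Fin r → ℤ), (∀ i, IsChr (x i).2) →
      (∀ s : ℂ, 1 < s.re → ∀ l : Fin r → ℂ, (∀ i, HasSum (logTerm (x i).2 s) (l i)) →
        Complex.exp (∑ i, k i * l i) = 1) →
      (∀ (τ : F →+* ℂ) (a : Fin r → ℂ), (∀ i, Ratio M τ (x i) (a i)) → ∏ i, a i ^ k i = 1) ∧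
      ∀ (σ : ℂ ≃+* ℂ) (τ : F →+* ℂ) (u : Fin r → ℂˣ), (∀ i, Defect M σ τ (x i) (u i)) →
        ∏ i, u i ^ k i = 1) ∧
    -- (3)
    (∀ x : Pair, IsChr x.2 → PowerForm M Cx x) ∧
    -- (4)
    (∀ (σ : ℂ ≃+* ℂ) (τ : F →+* ℂ),
      (∀ y : Pair, Cx y → ∀ v : ℂˣ, Defect M σ τ y v → IsOfFinOrder v) →
      ∀ x : Pair, IsChr x.2 → ∀ u : ℂˣ, Defect M σ τ x u → IsOfFinOrder u) ∧
    -- (5)
    (∀ τ : F →+* ℂ, (∀ y : Pair, Cx y → ∀ b : ℂ, Ratio M τ y b → IsAlgebraic ℚ b) →
      ∀ x : Pair, IsChr x.2 → ∀ a : ℂ, Ratio M τ x a → IsAlgebraic ℚ a) ∧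
    -- (6)
    (∀ (σ : ℂ ≃+* ℂ) (τ : F →+* ℂ),
      (∀ (K : Type) [Field K] [NumberField K], Defect M σ τ ⟨⟨K, K⟩, fun _ => 1⟩ 1) →
      (∀ (E : Ext) (ψ : G E →* ℂˣ), IsTotallyComplex E.K → Function.Injective ψ →
        Defect M σ τ ⟨E, lin ψ⟩ 1) →
      (∀ x : Pair, IsChr x.2 → ∀ u : ℂˣ, Defect M σ τ x u →
        (u = 1 ∨ u = -1) ∧ (Odd (Module.finrank x.1.K x.1.L) → u = 1)) ∧
      ((∀ (E : Ext) (ψ : G E →* ℂˣ), IsTotallyReal E.K → TotallyOdd ψ →
          Defect M σ τ ⟨E, lin ψ⟩ 1) →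
        ∀ (E : Ext) (ψ : G E →* ℂˣ), IsTotallyReal E.K → Defect M σ τ ⟨E, lin ψ⟩ 1)) ∧
    -- (7)
    ∀ m : ℕ, m ≠ 0 →
      (∀ x : Pair, IsChr x.2 → PowerForm M (Basic m) x) ∧
      (∀ (σ : ℂ ≃+* ℂ) (τ : F →+* ℂ),
        (∀ y : Pair, Basic m y → ∀ v : ℂˣ, Defect M σ τ y v → IsOfFinOrder v) →
        ∀ x : Pair, IsChr x.2 → ∀ u : ℂˣ, Defect M σ τ x u → IsOfFinOrder u) ∧
      (∀ τ : F →+* ℂ, (∀ y : Pair, Basic m y → ∀ b : ℂ, Ratio M τ y b → IsAlgebraic ℚ b) →
        ∀ x : Pair, IsChr x.2 → ∀ a : ℂ, Ratio M τ x a → IsAlgebraic ℚ a) := by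
  have h3 : ∀ x : Pair, IsChr x.2 → PowerForm M Cx x := fun x hx =>
    powerForm_of (fun _ h => h.isChr) hx
      (power_cx (bothInv M) Cx Cx.one (fun E hE ψ hψ => Cx.complex E ψ hE hψ) hx)
  have h7 : ∀ m : ℕ, m ≠ 0 → ∀ x : Pair, IsChr x.2 → PowerForm M (Basic m) x :=
    fun m hm x hx => powerForm_of (fun _ h => h.isChr) hx
      (power_form (bothInv M) (Basic m) hm (fun K _ _ => Basic.trivial K)
        (fun E hE ψ hψ => Basic.odd E ψ hE hψ)
        (fun E hE hP ψ hψ => Basic.unramified E ψ hE (fun P hPm =>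
          ⟨fun g hg => (hP P hPm).1 g ((mem_inertia g).mp hg),
            fun hmP g hg => (hP P hPm).2 hmP g ((mem_decomp g).mp hg)⟩) hψ) hx)
  refine ⟨fun x hx => ⟨fun τ => ⟨_, ratio_val τ hx, fun r hr => ratio_eq hx hr⟩,
    fun σ τ => ⟨_, defect_val σ τ hx, fun u hu => defect_eq hx hu⟩⟩,
    fun r x k hx h => ⟨fun τ a ha => ?_, fun σ τ u hu => ?_⟩, h3,
    fun σ τ hb x hx u hu => powerForm_root (fun _ h => h.isChr) (h3 x hx) hb hu,
    fun τ hb x hx a ha => powerForm_alg (fun _ h => h.isChr) (h3 x hx) hb ha,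
    fun σ τ hK hC => ⟨fun x hx u hu => ?_, fun hO E ψ hE => ?_⟩,
    fun m hm => ⟨h7 m hm,
      fun σ τ hb x hx u hu => powerForm_root (fun _ h => h.isChr) (h7 m hm x hx) hb hu,
      fun τ hb x hx a ha => powerForm_alg (fun _ h => h.isChr) (h7 m hm x hx) hb ha⟩⟩
  · have h1 := art_rel (A := ratInv M τ) hx h
    have h2 := congrArg Units.val h1
    rw [Units.coe_prod, Units.val_one] at h2
    rw [← h2]
    exact Finset.prod_congr rfl fun i _ => by
      rw [Units.val_zpow_eq_zpow_val, ratio_eq (hx i) (ha i)]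
  · rw [← art_rel (A := defInv M σ τ) hx h]
    exact Finset.prod_congr rfl fun i _ => by rw [defect_eq (hx i) (hu i)]
  · rw [defect_eq hx hu]
    exact sign_main (defInv M σ τ)
      (fun K _ _ => (defect_eq (Pool.Agent.W2helper23.DEL.isChr_one ⟨K, K⟩) (hK K)).symm)
      (fun E hE ψ hψ => (defect_eq (isChr_lin ψ) (hC E ψ hE hψ)).symm) hx
  · have i1 : TrivOne (defInv M σ τ) := fun K _ _ =>
      (defect_eq (x := ⟨⟨K, K⟩, fun _ => 1⟩) (Pool.Agent.W2helper23.DEL.isChr_one ⟨K, K⟩)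
        (hK K)).symm
    have i2 : TrivComplex (defInv M σ τ) := fun K L _ _ _ _ _ _ hK ψ hψ =>
      (defect_eq (x := ⟨⟨K, L⟩, lin (E := ⟨K, L⟩) ψ⟩) (isChr_lin (E := ⟨K, L⟩) ψ)
        (hC ⟨K, L⟩ ψ hK hψ)).symm
    have i3 : TrivOdd (defInv M σ τ) := fun K L _ _ _ _ _ _ hK ψ hψ =>
      (defect_eq (x := ⟨⟨K, L⟩, lin (E := ⟨K, L⟩) ψ⟩) (isChr_lin (E := ⟨K, L⟩) ψ)
        (hO ⟨K, L⟩ ψ hK (by
          rintro t ⟨φ, hφ⟩
          refine hψ φ t ?_
          ext x
          exact (hφ x).symm))).symm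
    have h1 : pval (defInv M σ τ) ⟨E, lin ψ⟩ = 1 := val_lin_real i1 i2 i3 hE ψ
    have h2 := defect_val (M := M) (x := ⟨E, lin ψ⟩) σ τ (isChr_lin ψ)
    rwa [h1] at h2

end Pool.Agent.W2helper23.Old.CdArtinTwists
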